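import Pool.Agent.N571.SS.D.Main

/-!
# MP_7e9852_an, Q1: yes

There are a non-amenable strongly solid `II₁` factor `N` and an existential embedding `N ⊆ M` in a
`II₁` factor `M` which has a Cartan subalgebra. Moreover `N = L(Γ)` for a countable,
bi-exact group `Γ` with the complete metric approximation property (weakly amenable with constant
`1`) and with infinite conjugacy classes, which contains a free group of rank two.

In the proof, `Γ` is the union of the groups `K 0 ≤ K 1 ≤ …`, where `K 0` is free of rank two and
each `K n` acts with finite stabilizers on a locally finite tree. `K (n + 1)` is a group of lifts,
to the universal covering, of automorphisms of a graph on which the lamplighter group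
`ℤ/2 ≀ K n` acts; it contains an involution `c n` which commutes with its conjugates by the elements
of a large finite subset of `K n`, it has a retraction to `ℤ/2 ≀ K n` which is the identity on
`K n` and takes `c n` to the lamp at `1`, and `K n` is almost malnormal in `K (n + 1)`. The last
condition gives that `Γ` is bi-exact. The maps which take the lamp to `c n` show that `L(Γ)` is
existential in `M = L(ℤ/2 ≀ Γ)`, and the von Neumann algebra of the group of the lamps is a Cartan
subalgebra of `M`. That `L(Γ)` is strongly solid for a bi-exact group `Γ` with the complete metric
approximation property is a known theorem (Ozawa and Popa, Chifan and Sinclair, Popa and Vaes),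
which is proved here in full.
-/

set_option autoImplicit false

namespace Pool.Agent.Results.MP_7e9852_an.StronglySolidExistentialCartan

open Pool.Agent.N571.SS (GoodGroup IsGroupVN)
open Pool.Agent.N571.SS.D (IsAnswer)

/-- There are a countable, bi-exact group `Γ` with the complete metric approximation property and
infinite conjugacy classes which contains a free group of rank two, and von Neumann algebras
`N ⊆ M` and `A ⊆ M` on a separable Hilbert space such that `N` is the group von Neumann algebra of
`Γ` (with the canonical unitaries `u g`) and a non-amenable strongly solid `II₁` factor, `M` is a
`II₁` factor, `A` is a Cartan subalgebra of `M` and the inclusion `N ⊆ M` is existential, for every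
non-principal ultrafilter on `ℕ`. -/
theorem result :
    ∃ (Γ : Type) (_ : Group Γ) (H : Type) (_ : NormedAddCommGroup H) (_ : InnerProductSpace ℂ H)
      (_ : CompleteSpace H) (_ : TopologicalSpace.SeparableSpace H) (u : Γ → (H →L[ℂ] H))
      (N M A : VonNeumannAlgebra H) (Ω : H),
      GoodGroup Γ ∧ IsGroupVN u N Ω ∧ IsAnswer N M A Ω :=
  Pool.Agent.N571.SS.D.final2

end Pool.Agent.Results.MP_7e9852_an.StronglySolidExistentialCartan
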